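import Pool.Agent.H95RU.Fam4
import Pool.Agent.H95RU.TAU
import Pool.Agent.H95RU.AVX
import Pool.Agent.H95RU.DAVK
import Pool.Agent.H95RU.UPK
import Pool.Agent.H95RU.LOK
import Pool.Agent.H95RU.COMBP
import Pool.Agent.H95RU.MOMP
import Pool.Agent.H95RU.PAIR

/-!
# Prime exponents near the Mersenne numbers: the Poisson law and the law of large numbers

The question is about the number of the primes `q ≤ n` for which `2 ^ q - 1` is prime. Consider the numbers
`k * 2 ^ q - 1` with prime exponents `q`, where `k = 1` modulo the product `P w` of the primes up to `w`: they have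
the same residues as the Mersenne numbers `2 ^ q - 1` modulo all primes up to `w`.

For `k` let `exps y N k` be the number of the primes `q ≤ N` for which `k * 2 ^ q - 1` has no prime factor up to `y`,
and let `E = mean w y N 1` be the number of the primes `q ≤ N` for which `2 ^ q - 1` has no prime factor up to `w`
(these are all primes `w < q ≤ N` and possibly some smaller ones), times the product of `1 - 1 / p` over the primes
`w < p ≤ y`. We prove, for `k` in the residue class of `1` modulo `P w`, in any interval whose length is a power of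
`y`: for almost all `k` the number `exps y N k` is asymptotically `E`, if `E` is large (law of large numbers), and
`exps y N k` has the Poisson distribution with mean `E`, up to `ε` in total variation, if `E` is bounded. This is the
behaviour of the exponents of the Mersenne primes which is predicted by the heuristics of Lenstra, Pomerance and
Wagstaff, with a sieve condition in place of the condition that the number is prime. The same holds in every residue
class `k₀` which is not nearly covered.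

Method: the binomial moments. The correlations of `r` prime exponents are products over pairs, up to the tails of
singular series, which are controlled by Romanoff's method with arbitrary powers together with the upper bound of
the sieve for the pairs of primes with a given difference.

Stubs proved by helper9 (TAU), helper21 (AVX), helper69 (DAVK), helper1 (UPK), helper96 (LOK), helper72 (COMBP),
helper86 (MOMP) and helper77 (PAIR); design and assembly helper95. Libraries of the starting files: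
`Pool.Agent.Y820.LT`, `Pool.Agent.H373R2.T7`, `Pool.Agent.TH464.PO`.
-/

set_option autoImplicit false

namespace Pool.Agent.Results.MP_9b2bac_nt.NearMersenneExponents

open Finset

/-- The numbers `k 2 ^ q - 1`; for `k = 1` the Mersenne numbers. -/
def f (k q : ℕ) : ℕ := k * 2 ^ q - 1

/-- `m` has no prime factor up to `y`. -/
def Rough (y m : ℕ) : Prop := ∀ p : ℕ, p.Prime → p ≤ y → ¬ p ∣ m

/-- The product of the primes up to `w`. -/
def P (w : ℕ) : ℕ := ∏ p ∈ (Icc 1 w).filter Nat.Prime, p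

/-- The product of `1 - 1 / p` over the primes `w < p ≤ y`. -/
noncomputable def V (w y : ℕ) : ℝ := ∏ p ∈ (Icc 1 y).filter (fun p => p.Prime ∧ w < p), (1 - 1 / (p : ℝ))

open Classical in
/-- The number of the primes `q ≤ N` for which `k 2 ^ q - 1` has no prime factor up to `y`. -/
noncomputable def exps (y N k : ℕ) : ℕ := ((Icc 1 N).filter (fun q => q.Prime ∧ Rough y (f k q))).card

/-- For at least the proportion `w ^ (-1 / 40)` of the primes `q ≤ N` the number `k 2 ^ q - 1` has no prime factor up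
to `w`. -/
def NotCovered (w N k : ℕ) : Prop :=
  (((Icc 1 N).filter Nat.Prime).card : ℝ) ≤ exps w N k * (w : ℝ) ^ (1 / 40 : ℝ)

/-- The expected number: the number of the primes `q ≤ N` for which `k 2 ^ q - 1` has no prime factor up to `w`,
times the product of `1 - 1 / p` over the primes `w < p ≤ y`. -/
noncomputable def mean (w y N k : ℕ) : ℝ := V w y * exps w N k

/-- The probability that a Poisson variable with mean `x` has a value in `A`. -/
noncomputable def poisson (x : ℝ) (A : Finset ℕ) : ℝ := ∑ i ∈ A, Real.exp (-x) * x ^ i / i.factorial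

open Classical in
/-- The number of the `j` with `Z < j ≤ Z + Y` for which `exps y N (k₀ + P w * j)` lies in `A`. -/
noncomputable def number (w y N Z Y k₀ : ℕ) (A : Finset ℕ) : ℕ :=
  ((Ioc Z (Z + Y)).filter (fun j => exps y N (k₀ + P w * j) ∈ A)).card

open Classical in
/-- The number of the `j` with `Z < j ≤ Z + Y` for which `exps y N (k₀ + P w * j)` differs from the expected number
by more than the factor `1 ± ε`. -/
noncomputable def exceptions (ε : ℝ) (w y N Z Y k₀ : ℕ) : ℕ :=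
  ((Ioc Z (Z + Y)).filter (fun j =>
    ε * mean w y N k₀ < |(exps y N (k₀ + P w * j) : ℝ) - mean w y N k₀|)).card

lemma V_eq (w y : ℕ) : V w y = Pool.Agent.H95RU.Vt w y := rfl

lemma P_eq (w : ℕ) : P w = Pool.Agent.H95RU.P w := rfl

open Classical in
lemma exps_eq (y N k : ℕ) (g : ℕ → ℕ) (hg : ∀ q, f k q = g q) :
    exps y N k = (Pool.Agent.H95RU.GG y N (fun _ => True) g).card := by
  unfold exps
  congr 1
  ext q
  rw [mem_filter, Pool.Agent.H95RU.mem_GG, hg q]
  unfold Rough Pool.Agent.H95RU.Rough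
  tauto

lemma step {k₀ : ℕ} (hk : 1 ≤ k₀) (w j q : ℕ) :
    f (k₀ + P w * j) q = (k₀ * 2 ^ q - 1) + P w * 2 ^ q * j := by
  unfold f
  have e1 : 1 ≤ k₀ * 2 ^ q := Nat.mul_pos hk (by positivity)
  have e2 : (k₀ + P w * j) * 2 ^ q = k₀ * 2 ^ q + P w * 2 ^ q * j := by ring
  omega

lemma momp : Pool.Agent.H95RU.S_MOMP :=
  Pool.Agent.H95RU.t_MOMP Pool.Agent.H95RU.t_UPK Pool.Agent.H95RU.t_LOK Pool.Agent.H95RU.t_COMBP

lemma pair : Pool.Agent.H95RU.S_PAIR :=
  Pool.Agent.H95RU.t_PAIR (Pool.Agent.H95RU.t_DAVK (Pool.Agent.H95RU.t_AVX Pool.Agent.H95RU.t_TAU))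

lemma lln (ε : ℝ) (hε : 0 < ε) : ∃ (K : ℝ) (w₀ : ℕ), ∀ w : ℕ, w₀ ≤ w → ∃ K₀ y₀ N₀ : ℕ,
    ∀ Z Y y N : ℕ, y₀ ≤ y → y ^ K₀ ≤ Y → N₀ ≤ N → ∀ k₀ : ℕ, 1 ≤ k₀ → NotCovered w N k₀ →
      K ≤ mean w y N k₀ → (exceptions ε w y N Z Y k₀ : ℝ) ≤ ε * Y := by
  classical
  obtain ⟨K, w₀, h⟩ := Pool.Agent.H95RU.genLLN momp pair 2 le_rfl ε hε
  refine ⟨K, max w₀ 2, fun w hw => ?_⟩
  obtain ⟨K₀, y₀, N₀, h⟩ := h w ((le_max_left _ _).trans hw)
  have hw2 : 2 ≤ w := (le_max_right _ _).trans hw
  refine ⟨K₀, y₀, N₀, fun Z Y y N h1 h2 h3 k₀ hk hN hE => ?_⟩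
  have hE0 := exps_eq w N k₀ (fun q => k₀ * 2 ^ q - 1) (fun q => rfl)
  unfold NotCovered at hN
  unfold mean at hE
  rw [hE0] at hN hE
  have h4 := h Z Y y N h1 h2 h3 (fun _ => True) _ _ (Pool.Agent.H95RU.fam4_M hw2 k₀ hk) hN hE
  refine le_of_eq_of_le ?_ h4
  unfold exceptions mean
  rw [hE0]
  apply congrArg
  apply congrArg
  ext j
  rw [mem_filter, mem_filter, exps_eq y N (k₀ + P w * j) (fun q => (k₀ * 2 ^ q - 1) + P w * 2 ^ q * j)
    (fun q => step hk w j q)]
  exact Iff.rfl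

lemma poi (x₀ ε : ℝ) (hx₀ : 0 ≤ x₀) (hε : 0 < ε) : ∃ w₀ : ℕ, ∀ w : ℕ, w₀ ≤ w → ∃ K₀ y₀ N₀ : ℕ,
    ∀ Z Y y N : ℕ, y₀ ≤ y → y ^ K₀ ≤ Y → N₀ ≤ N → ∀ k₀ : ℕ, 1 ≤ k₀ → NotCovered w N k₀ →
      mean w y N k₀ ≤ x₀ → ∀ A : Finset ℕ,
        |(number w y N Z Y k₀ A : ℝ) - Y * poisson (mean w y N k₀) A| ≤ ε * Y := by
  classical
  obtain ⟨w₀, h⟩ := Pool.Agent.H95RU.genPoi momp pair 2 le_rfl x₀ ε hx₀ hε
  refine ⟨max w₀ 2, fun w hw => ?_⟩
  obtain ⟨K₀, y₀, N₀, h⟩ := h w ((le_max_left _ _).trans hw)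
  have hw2 : 2 ≤ w := (le_max_right _ _).trans hw
  refine ⟨K₀, y₀, N₀, fun Z Y y N h1 h2 h3 k₀ hk hN hE A => ?_⟩
  have hE0 := exps_eq w N k₀ (fun q => k₀ * 2 ^ q - 1) (fun q => rfl)
  unfold NotCovered at hN
  unfold mean at hE ⊢
  rw [hE0] at hN hE ⊢
  have h4 := h Z Y y N h1 h2 h3 (fun _ => True) _ _ (Pool.Agent.H95RU.fam4_M hw2 k₀ hk) hN hE A
  refine le_of_eq_of_le ?_ h4
  unfold poisson number
  congr 3
  apply congrArg
  ext j
  rw [mem_filter, mem_filter, exps_eq y N (k₀ + P w * j) (fun q => (k₀ * 2 ^ q - 1) + P w * 2 ^ q * j)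
    (fun q => step hk w j q)]
  exact Iff.rfl

lemma class_one (w : ℕ) (hw : 2 ≤ w) : ∃ N₁ : ℕ, ∀ N : ℕ, N₁ ≤ N → NotCovered w N 1 := by
  classical
  obtain ⟨N₁, h⟩ := Pool.Agent.H95RU.notcov4 w hw
  refine ⟨N₁, fun N hN => ?_⟩
  have hE0 := exps_eq w N 1 (fun q => 1 * 2 ^ q - 1) (fun q => rfl)
  unfold NotCovered
  rw [hE0]
  refine h N hN _ fun q hq hwq => ?_
  unfold Pool.Agent.H95RU.prm at hq
  rw [mem_filter] at hq
  rw [Pool.Agent.H95RU.mem_GG]
  exact ⟨hq.1, hq.2, trivial, Pool.Agent.H95RU.rough_M hq.2 hwq⟩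

/-- **Prime exponents near the Mersenne numbers.** `k₀ ≥ 1` is an integer for which at least the proportion
`w ^ (-1 / 40)` of the numbers `k₀ 2 ^ q - 1`, `q ≤ N` prime, has no prime factor up to `w`, and `k` runs through the
numbers `k₀ + P w * j`, `Z < j ≤ Z + Y`.

(1) For `k = 1` these are the Mersenne numbers; the Mersenne numbers with prime exponents `q > w` have no prime
factor up to `w`, so that the hypothesis holds for `k₀ = 1`.

(2) (law of large numbers) If the expected number `mean w y N k₀` is at least `K`, then for all `k` with at most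
`ε Y` exceptions the number of the primes `q ≤ N` for which `k 2 ^ q - 1` has no prime factor up to `y` is up to the
factor `1 ± ε` the expected number.

(3) (Poisson law) If the expected number `E = mean w y N k₀` is at most `x₀`, then the number of the primes `q ≤ N`
for which `k 2 ^ q - 1` has no prime factor up to `y` lies in `A` with the probability that a Poisson variable with
mean `E` lies in `A`, up to `ε`, for all finite sets `A` of natural numbers. -/
theorem result :
    ((∀ q : ℕ, f 1 q = 2 ^ q - 1) ∧ (∀ w q : ℕ, q.Prime → w < q → Rough w (f 1 q)) ∧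
      ∀ w : ℕ, 2 ≤ w → ∃ N₁ : ℕ, ∀ N : ℕ, N₁ ≤ N → NotCovered w N 1) ∧
    (∀ ε : ℝ, 0 < ε → ∃ (K : ℝ) (w₀ : ℕ), ∀ w : ℕ, w₀ ≤ w → ∃ K₀ y₀ N₀ : ℕ,
      ∀ Z Y y N : ℕ, y₀ ≤ y → y ^ K₀ ≤ Y → N₀ ≤ N → ∀ k₀ : ℕ, 1 ≤ k₀ → NotCovered w N k₀ →
        K ≤ mean w y N k₀ → (exceptions ε w y N Z Y k₀ : ℝ) ≤ ε * Y) ∧
    (∀ x₀ ε : ℝ, 0 ≤ x₀ → 0 < ε → ∃ w₀ : ℕ, ∀ w : ℕ, w₀ ≤ w → ∃ K₀ y₀ N₀ : ℕ,
      ∀ Z Y y N : ℕ, y₀ ≤ y → y ^ K₀ ≤ Y → N₀ ≤ N → ∀ k₀ : ℕ, 1 ≤ k₀ → NotCovered w N k₀ →
        mean w y N k₀ ≤ x₀ → ∀ A : Finset ℕ,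
          |(number w y N Z Y k₀ A : ℝ) - Y * poisson (mean w y N k₀) A| ≤ ε * Y) := by
  refine ⟨⟨fun q => ?_, fun w q hq hwq => Pool.Agent.H95RU.rough_M hq hwq, class_one⟩, lln, poi⟩
  unfold f
  rw [one_mul]

end Pool.Agent.Results.MP_9b2bac_nt.NearMersenneExponents
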